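import Pool.Agent.Helper84.EHP.Logs

open Real

namespace EHP.NumN

lemma H39 : H 39 = 39 / 800 := by unfold H; norm_num

lemma Lam39 : Lam 39 = log (800 / 39) := by
  unfold Lam
  congr 1
  norm_num

lemma X39 {w : ℝ} (hw : w ≠ 0) : X 39 w = -1 + 39 / 800 * (w + 2 + 1 / w) := by
  unfold X
  rw [H39]
  field_simp
  ring

/-- tangent bound of the logarithm -/
lemma log_tan {x y : ℝ} (hx : 0 < x) (hy : 0 < y) : log x ≤ log y + (x - y) / y := by
  have h := Real.log_le_sub_one_of_pos (div_pos hx hy)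
  rw [Real.log_div hx.ne' hy.ne'] at h
  have : x / y - 1 = (x - y) / y := by field_simp
  linarith

/-- tangent bound of the inverse -/
lemma inv_tan {x y : ℝ} (hx : 0 < x) (hy : 0 < y) : 2 / y - x / y ^ 2 ≤ 1 / x := by
  have h : 1 / x - (2 / y - x / y ^ 2) = (x - y) ^ 2 / (x * y ^ 2) := by
    field_simp
    ring
  have : 0 ≤ (x - y) ^ 2 / (x * y ^ 2) := by positivity
  linarith

lemma log39_lower {w : ℝ} (hw : 1 < w) :
    log 39 + log w - 1 / 39 / (w - 1) ≤ log (39 * w - 1) ∧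
    log 39 + log w - 1 / (38 * w) ≤ log (39 * w - 1) := by
  have h0 : 0 < 39 * w - 1 := by linarith
  have h1 := Real.log_le_sub_one_of_pos (div_pos (show 0 < 39 * w by linarith) h0)
  rw [Real.log_div (by positivity) h0.ne', Real.log_mul (by norm_num) (by positivity)] at h1
  have h2 : 39 * w / (39 * w - 1) - 1 = 1 / (39 * w - 1) := by field_simp; ring
  rw [h2] at h1
  have h3 : 1 / (39 * w - 1) ≤ 1 / 39 / (w - 1) := by
    rw [div_div]
    exact one_div_le_one_div_of_le (by linarith) (by linarith)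
  have h4 : 1 / (39 * w - 1) ≤ 1 / (38 * w) := one_div_le_one_div_of_le (by linarith) (by linarith)
  constructor <;> linarith

lemma U_bound {m wa u us c : ℝ} (hu : 1 < u) (hu' : u < 39) (hus : 1 < us) (hus' : us < 39)
    (hm : 0 ≤ m) (hm' : m ≤ 1) (hwa : 0 ≤ wa) (hc0 : 0 ≤ c)
    (hc : c ≤ -2 * wa * (m * log 39 - Lam 39) - 39 / 800 - wa * m / 39) :
    1 - 39 / 800 * (u + 2) - wa * (m * log 39 - Lam 39) +
      c * (2 / (us - 1) - (u - 1) / (us - 1) ^ 2) - wa * (1 - m) * (log us + (u - us) / us) +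
      wa * m * log 39 - wa * m * (log (39 - us) + ((39 - u) - (39 - us)) / (39 - us)) ≤
    -X 39 u - wa * Phi 39 m u := by
  have h1 := (log39_lower hu).1
  have hg : gr 39 u = log (39 * u - 1) - log (39 - u) := by
    unfold gr
    rw [Real.log_div (by linarith) (by linarith)]
  have h2 := log_tan (show 0 < u by linarith) (show 0 < us by linarith)
  have h3 := log_tan (show 0 < 39 - u by linarith) (show 0 < 39 - us by linarith)
  have h4 := inv_tan (show 0 < u - 1 by linarith) (show 0 < us - 1 by linarith)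
  have h5 : 1 / u ≤ 1 / (u - 1) := one_div_le_one_div_of_le (by linarith) (by linarith)
  have hi : 0 < 1 / (u - 1) := by
    have : 0 < u - 1 := by linarith
    positivity
  have h6 : (u + 1) / (u - 1) = 1 + 2 * (1 / (u - 1)) := by
    have : u - 1 ≠ 0 := by linarith
    field_simp
    ring
  have h7 : 1 / 39 / (u - 1) = 1 / 39 * (1 / (u - 1)) := by ring
  rw [h7] at h1
  rw [X39 (by linarith)]
  unfold Phi
  rw [hg, h6]
  set A := m * log 39 - Lam 39 with hA
  set i := 1 / (u - 1) with hi'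
  set ls := log us + (u - us) / us with hls
  set lt := log (39 - us) + ((39 - u) - (39 - us)) / (39 - us) with hlt
  have e1 : 0 ≤ wa * m * (log (39 * u - 1) - (log 39 + log u - 1 / 39 * i)) :=
    mul_nonneg (mul_nonneg hwa hm) (by linarith)
  have e2 : 0 ≤ wa * (1 - m) * (ls - log u) :=
    mul_nonneg (mul_nonneg hwa (by linarith)) (by linarith)
  have e3 : 0 ≤ wa * m * (lt - log (39 - u)) := mul_nonneg (mul_nonneg hwa hm) (by linarith)
  have e4 : 0 ≤ (-2 * wa * A - 39 / 800 - wa * m / 39 - c) * i :=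
    mul_nonneg (by linarith) hi.le
  have e5 : 0 ≤ c * (i - (2 / (us - 1) - (u - 1) / (us - 1) ^ 2)) :=
    mul_nonneg hc0 (by linarith)
  nlinarith [e1, e2, e3, e4, e5, h5]

lemma V_bound {m wb v vs d : ℝ} (hv : 39 < v) (hvs : 39 < vs)
    (hm : 0 ≤ m) (hm' : m ≤ 1) (hwb : 0 ≤ wb) (hwb' : wb * m ≤ 1) (hd0 : 0 ≤ d)
    (hd : d ≤ -2 * wb * (m * log 39 - Lam 39)) :
    -1 + 39 / 800 * (v + 2) - wb * (m * log 39 - Lam 39) +
      d * (2 / (vs - 1) - (v - 1) / (vs - 1) ^ 2) - wb * (1 - m) * (log vs + (v - vs) / vs) +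
      wb * m * log 39 - wb * m * (log (vs - 39) + ((v - 39) - (vs - 39)) / (vs - 39)) ≤
    X 39 v - wb * Phi 39 m v := by
  have h1 := (log39_lower (show 1 < v by linarith)).2
  have hg : gr 39 v = log (39 * v - 1) - log (v - 39) := by
    unfold gr
    have : (39 * v - 1) / (39 - v) = -((39 * v - 1) / (v - 39)) := by
      rw [← div_neg]; congr 1; ring
    rw [this, Real.log_neg_eq_log, Real.log_div (by linarith) (by linarith)]
  have h2 := log_tan (show 0 < v by linarith) (show 0 < vs by linarith)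
  have h3 := log_tan (show 0 < v - 39 by linarith) (show 0 < vs - 39 by linarith)
  have h4 := inv_tan (show 0 < v - 1 by linarith) (show 0 < vs - 1 by linarith)
  have hi : 0 < 1 / (v - 1) := by
    have : 0 < v - 1 := by linarith
    positivity
  have hj : 0 < 1 / v := by
    have : 0 < v := by linarith
    positivity
  have h6 : (v + 1) / (v - 1) = 1 + 2 * (1 / (v - 1)) := by
    have : v - 1 ≠ 0 := by linarith
    field_simp
    ring
  have h7 : 1 / (38 * v) = 1 / 38 * (1 / v) := by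
    have : v ≠ 0 := by linarith
    field_simp
  rw [h7] at h1
  rw [X39 (by linarith)]
  unfold Phi
  rw [hg, h6]
  set A := m * log 39 - Lam 39 with hA
  set i := 1 / (v - 1) with hi'
  set j := 1 / v with hj'
  set ls := log vs + (v - vs) / vs with hls
  set lt := log (vs - 39) + ((v - 39) - (vs - 39)) / (vs - 39) with hlt
  have e1 : 0 ≤ wb * m * (log (39 * v - 1) - (log 39 + log v - 1 / 38 * j)) :=
    mul_nonneg (mul_nonneg hwb hm) (by linarith)
  have e2 : 0 ≤ wb * (1 - m) * (ls - log v) :=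
    mul_nonneg (mul_nonneg hwb (by linarith)) (by linarith)
  have e3 : 0 ≤ wb * m * (lt - log (v - 39)) := mul_nonneg (mul_nonneg hwb hm) (by linarith)
  have e4 : 0 ≤ (-2 * wb * A - d) * i := mul_nonneg (by linarith) hi.le
  have e5 : 0 ≤ d * (i - (2 / (vs - 1) - (v - 1) / (vs - 1) ^ 2)) :=
    mul_nonneg hd0 (by linarith)
  have e6 : 0 ≤ (1 - wb * m) * j := mul_nonneg (by linarith) hj.le
  nlinarith [e1, e2, e3, e4, e5, e6, hj]

/-- linearity in `m` -/
lemma Phi_lin (k w m m0 m1 : ℝ) :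
    (m1 - m0) * Phi k m w = (m1 - m) * Phi k m0 w + (m - m0) * Phi k m1 w := by
  unfold Phi
  ring

lemma comb {F F0 F1 m m0 m1 K : ℝ} (h : m0 < m1) (hm0 : m0 ≤ m) (hm1 : m ≤ m1)
    (e : (m1 - m0) * F = (m1 - m) * F0 + (m - m0) * F1) (h0 : K ≤ F0) (h1 : K ≤ F1) : K ≤ F := by
  have h2 : 0 ≤ (m1 - m) * (F0 - K) := mul_nonneg (by linarith) (by linarith)
  have h3 : 0 ≤ (m - m0) * (F1 - K) := mul_nonneg (by linarith) (by linarith)
  have h4 : (m1 - m0) * K ≤ (m1 - m0) * F := by nlinarith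
  exact le_of_mul_le_mul_left h4 (by linarith)

lemma case_i0 {u v : ℝ} (hu : 1 < u) (hu' : u ≤ 18.46) (hv : 39 < v) (_hv' : v ≤ 56.2) :
    1.8345 ≤ X 39 v - X 39 u - 0.77 * Phi 39 0.5 v - 1.98 * Phi 39 0.5 u := by
  obtain ⟨a1, a2⟩ := l39
  obtain ⟨b1, b2⟩ := lLam
  rw [← Lam39] at b1 b2
  obtain ⟨c1, c2⟩ := l1846
  obtain ⟨d1, d2⟩ := l2054
  obtain ⟨e1, e2⟩ := l4862
  obtain ⟨f1, f2⟩ := l962
  have hU := U_bound (m := 0.5) (wa := 1.98) (u := u) (us := 923 / 50) (c := 4.635) hu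
    (by linarith) (by norm_num) (by norm_num) (by norm_num) (by norm_num) (by norm_num)
    (by norm_num) (by linarith)
  have hV := V_bound (m := 0.5) (wb := 0.77) (v := v) (vs := 2431 / 50) (d := 1.831) hv
    (by norm_num) (by norm_num) (by norm_num) (by norm_num) (by norm_num) (by norm_num)
    (by linarith)
  norm_num at hU hV
  linarith

lemma case_i1 {u v : ℝ} (hu : 1 < u) (hu' : u ≤ 18.46) (hv : 39 < v) (_hv' : v ≤ 56.2) :
    1.8345 ≤ X 39 v - X 39 u - 0.77 * Phi 39 0.7 v - 1.98 * Phi 39 0.7 u := by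
  obtain ⟨a1, a2⟩ := l39
  obtain ⟨b1, b2⟩ := lLam
  rw [← Lam39] at b1 b2
  obtain ⟨c1, c2⟩ := l1846
  obtain ⟨d1, d2⟩ := l2054
  obtain ⟨e1, e2⟩ := l5126
  obtain ⟨f1, f2⟩ := l1226
  have hU := U_bound (m := 0.7) (wa := 1.98) (u := u) (us := 923 / 50) (c := 1.723) hu
    (by linarith) (by norm_num) (by norm_num) (by norm_num) (by norm_num) (by norm_num)
    (by norm_num) (by linarith)
  have hV := V_bound (m := 0.7) (wb := 0.77) (v := v) (vs := 2563 / 50) (d := 0.703) hv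
    (by norm_num) (by norm_num) (by norm_num) (by norm_num) (by norm_num) (by norm_num)
    (by linarith)
  norm_num at hU hV
  linarith

lemma case_ii0 {u v : ℝ} (hu : 1 < u) (hu' : u ≤ 13.31) (hv : 39 < v) (_hv' : v ≤ 56.2) :
    1.8345 ≤ X 39 v - X 39 u - 0.8 * Phi 39 0.5 v - 1.2 * Phi 39 0.5 u := by
  obtain ⟨a1, a2⟩ := l39
  obtain ⟨b1, b2⟩ := lLam
  rw [← Lam39] at b1 b2
  obtain ⟨c1, c2⟩ := l1331
  obtain ⟨d1, d2⟩ := l2569
  obtain ⟨e1, e2⟩ := l4862
  obtain ⟨f1, f2⟩ := l962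
  have hU := U_bound (m := 0.5) (wa := 1.2) (u := u) (us := 1331 / 100) (c := 2.79) hu
    (by linarith) (by norm_num) (by norm_num) (by norm_num) (by norm_num) (by norm_num)
    (by norm_num) (by linarith)
  have hV := V_bound (m := 0.5) (wb := 0.8) (v := v) (vs := 2431 / 50) (d := 1.902) hv
    (by norm_num) (by norm_num) (by norm_num) (by norm_num) (by norm_num) (by norm_num)
    (by linarith)
  norm_num at hU hV
  linarith

lemma case_ii1 {u v : ℝ} (hu : 1 < u) (hu' : u ≤ 13.31) (hv : 39 < v) (_hv' : v ≤ 56.2) :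
    1.8345 ≤ X 39 v - X 39 u - 0.8 * Phi 39 0.7 v - 1.2 * Phi 39 0.7 u := by
  obtain ⟨a1, a2⟩ := l39
  obtain ⟨b1, b2⟩ := lLam
  rw [← Lam39] at b1 b2
  obtain ⟨c1, c2⟩ := l1331
  obtain ⟨d1, d2⟩ := l2569
  obtain ⟨e1, e2⟩ := l5126
  obtain ⟨f1, f2⟩ := l1226
  have hU := U_bound (m := 0.7) (wa := 1.2) (u := u) (us := 1331 / 100) (c := 1.025) hu
    (by linarith) (by norm_num) (by norm_num) (by norm_num) (by norm_num) (by norm_num)
    (by norm_num) (by linarith)
  have hV := V_bound (m := 0.7) (wb := 0.8) (v := v) (vs := 2563 / 50) (d := 0.730) hv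
    (by norm_num) (by norm_num) (by norm_num) (by norm_num) (by norm_num) (by norm_num)
    (by linarith)
  norm_num at hU hV
  linarith

lemma case_iii0 {u v : ℝ} (hu : 14 < u) (hu' : u ≤ 18.46) (hv : 39 < v) (_hv' : v ≤ 56.2) :
    1.8345 ≤ X 39 v - X 39 u - 0.89 * Phi 39 0.7 v - 1.94 * Phi 39 0.7 u := by
  obtain ⟨a1, a2⟩ := l39
  obtain ⟨b1, b2⟩ := lLam
  rw [← Lam39] at b1 b2
  obtain ⟨c1, c2⟩ := l1846
  obtain ⟨d1, d2⟩ := l2054
  obtain ⟨e1, e2⟩ := l5334
  obtain ⟨f1, f2⟩ := l1434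
  have hU := U_bound (m := 0.7) (wa := 1.94) (u := u) (us := 923 / 50) (c := 1.687) (by linarith)
    (by linarith) (by norm_num) (by norm_num) (by norm_num) (by norm_num) (by norm_num)
    (by norm_num) (by linarith)
  have hV := V_bound (m := 0.7) (wb := 0.89) (v := v) (vs := 2667 / 50) (d := 0.812) hv
    (by norm_num) (by norm_num) (by norm_num) (by norm_num) (by norm_num) (by norm_num)
    (by linarith)
  norm_num at hU hV
  linarith

lemma case_iii1 {u v : ℝ} (hu : 14 < u) (hu' : u ≤ 18.46) (hv : 39 < v) (_hv' : v ≤ 56.2) :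
    1.8345 ≤ X 39 v - X 39 u - 0.89 * Phi 39 0.78 v - 1.94 * Phi 39 0.78 u := by
  obtain ⟨a1, a2⟩ := l39
  obtain ⟨b1, b2⟩ := lLam
  rw [← Lam39] at b1 b2
  obtain ⟨c1, c2⟩ := l1846
  obtain ⟨d1, d2⟩ := l2054
  obtain ⟨e1, e2⟩ := l5441
  obtain ⟨f1, f2⟩ := l1541
  have hU := U_bound (m := 0.78) (wa := 1.94) (u := u) (us := 923 / 50) (c := 0.546) (by linarith)
    (by linarith) (by norm_num) (by norm_num) (by norm_num) (by norm_num) (by norm_num)
    (by norm_num) (by linarith)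
  have hV := V_bound (m := 0.78) (wb := 0.89) (v := v) (vs := 5441 / 100) (d := 0.290) hv
    (by norm_num) (by norm_num) (by norm_num) (by norm_num) (by norm_num) (by norm_num)
    (by linarith)
  norm_num at hU hV
  linarith

lemma rho_le {u v wa wb su sv : ℝ} (hsu : 0 < su) (hsv : 0 < sv) (hu : su ≤ ss 39 u)
    (hv : sv ≤ ss 39 v) (hwa : 0 ≤ wa) (hwb : 0 ≤ wb) :
    rho 39 u v wa wb ≤ 2 / 3.1415 * (2 * 0.2208) * (wb / sv + wa / su) := by
  unfold rho
  have h1 : √(H 39) ≤ 0.2208 := by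
    rw [H39]
    exact Real.sqrt_le_iff.2 ⟨by norm_num, by norm_num⟩
  have h2 : 2 / π ≤ 2 / 3.1415 :=
    div_le_div_of_nonneg_left (by norm_num) (by norm_num) Real.pi_gt_d4.le
  have h3 : wb / ss 39 v ≤ wb / sv := div_le_div_of_nonneg_left hwb hsv hv
  have h4 : wa / ss 39 u ≤ wa / su := div_le_div_of_nonneg_left hwa hsu hu
  have h5 : 0 ≤ wb / ss 39 v := div_nonneg hwb (hsv.le.trans hv)
  have h6 : 0 ≤ wa / ss 39 u := div_nonneg hwa (hsu.le.trans hu)
  have h7 : 0 ≤ 2 / π := by positivity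
  have h8 : 0 ≤ √(H 39) := Real.sqrt_nonneg _
  apply mul_le_mul
  · apply mul_le_mul h2 (by linarith) (by linarith) (by norm_num)
  · linarith
  · linarith
  · norm_num

lemma ss_le {w w0 s : ℝ} (h0 : 0 < w0) (h : w0 ≤ w) (hs : s ≤ 39 / 800 * (w0 - 1 / w0)) :
    s ≤ ss 39 w := by
  unfold ss
  rw [H39]
  have : 1 / w ≤ 1 / w0 := one_div_le_one_div_of_le h0 h
  linarith

lemma X39' {w : ℝ} (hw : 0 < w) : w * (X 39 w + 1) * (800 / 39) = (w + 1) ^ 2 := by
  rw [X39 hw.ne']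
  field_simp
  ring

lemma u_le {u u0 x : ℝ} (hu : 0 < u) (hx : X 39 u ≤ x) (h0 : 1 ≤ u0)
    (h : u0 * (x + 1) * (800 / 39) ≤ (u0 + 1) ^ 2) : u ≤ u0 := by
  by_contra hc
  push Not at hc
  have h1 := X39' hu
  have h2 : u * (X 39 u + 1) ≤ u * (x + 1) := by nlinarith
  have h3 : (u + 1) ^ 2 ≤ u * ((x + 1) * (800 / 39)) := by nlinarith
  set K := (x + 1) * (800 / 39) with hK
  have h4 : u0 * K ≤ (u0 + 1) ^ 2 := by rw [hK]; nlinarith
  have h5 : u * (u0 * K) ≤ u * (u0 + 1) ^ 2 := mul_le_mul_of_nonneg_left h4 hu.le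
  have h6 : u0 * (u + 1) ^ 2 ≤ u0 * (u * K) := mul_le_mul_of_nonneg_left h3 (by linarith)
  have h7 : u0 * (u + 1) ^ 2 - u * (u0 + 1) ^ 2 = (u - u0) * (u * u0 - 1) := by ring
  have h8 : 0 < (u - u0) * (u * u0 - 1) := by
    apply mul_pos (by linarith)
    nlinarith
  nlinarith

lemma le_u {u u0 x : ℝ} (hu : 1 < u) (hx : x ≤ X 39 u) (h0 : 1 ≤ u0)
    (h : (u0 + 1) ^ 2 ≤ u0 * (x + 1) * (800 / 39)) : u0 ≤ u := by
  by_contra hc
  push Not at hc
  have h1 := X39' (show 0 < u by linarith)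
  have h2 : u * (x + 1) ≤ u * (X 39 u + 1) := by nlinarith
  have h3 : u * ((x + 1) * (800 / 39)) ≤ (u + 1) ^ 2 := by nlinarith
  set K := (x + 1) * (800 / 39) with hK
  have h4 : (u0 + 1) ^ 2 ≤ u0 * K := by rw [hK]; nlinarith
  have h5 : u * (u0 + 1) ^ 2 ≤ u * (u0 * K) := mul_le_mul_of_nonneg_left h4 (by linarith)
  have h6 : u0 * (u * K) ≤ u0 * (u + 1) ^ 2 := mul_le_mul_of_nonneg_left h3 (by linarith)
  have h7 : u * (u0 + 1) ^ 2 - u0 * (u + 1) ^ 2 = (u0 - u) * (u * u0 - 1) := by ring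
  have h8 : 0 < (u0 - u) * (u * u0 - 1) := by
    apply mul_pos (by linarith)
    nlinarith
  nlinarith

lemma b_ge1 {m b : ℝ} (hm : 0.5 ≤ m) (hb1 : 1 < b)
    (hb : 0 ≤ m * log (b - 1) + (1 - m) * log (b + 1)) : 1.4142 ≤ b := by
  have h1 : log (b - 1) ≤ log (b + 1) := Real.log_le_log (by linarith) (by linarith)
  have h2 : 0 ≤ log (b - 1) + log (b + 1) := by nlinarith
  rw [← Real.log_mul (by linarith) (by linarith)] at h2
  have h3 : 1 ≤ (b - 1) * (b + 1) := by
    by_contra hc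
    push Not at hc
    have : log ((b - 1) * (b + 1)) < 0 := Real.log_neg (by nlinarith) hc
    linarith
  nlinarith

lemma b_ge2 {m b : ℝ} (hm : 0.7 ≤ m) (hb1 : 1 < b)
    (hb : 0 ≤ m * log (b - 1) + (1 - m) * log (b + 1)) : 1.6575 ≤ b := by
  have h1 : log (b - 1) ≤ log (b + 1) := Real.log_le_log (by linarith) (by linarith)
  have h2 : 0 ≤ 7 * log (b - 1) + 3 * log (b + 1) := by nlinarith
  by_contra hc
  push Not at hc
  have h3 : 7 * log (b - 1) + 3 * log (b + 1) = log ((b - 1) ^ 7 * (b + 1) ^ 3) := by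
    rw [Real.log_mul (by have : 0 < b - 1 := by linarith
                         positivity) (by have : 0 < b + 1 := by linarith
                                         positivity), Real.log_pow, Real.log_pow]
    norm_num
  have h4 : (b - 1) ^ 7 * (b + 1) ^ 3 ≤ 0.6575 ^ 7 * 2.6575 ^ 3 := by
    apply mul_le_mul
    · exact pow_le_pow_left₀ (by linarith) (by linarith) 7
    · exact pow_le_pow_left₀ (by linarith) (by linarith) 3
    · have : 0 < b + 1 := by linarith
      positivity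
    · norm_num
  have h5 : log ((b - 1) ^ 7 * (b + 1) ^ 3) < 0 := by
    apply Real.log_neg
    · have : 0 < b + 1 := by linarith
      have : 0 < b - 1 := by linarith
      positivity
    · exact h4.trans_lt (by norm_num)
  linarith

lemma F_lin {m m0 m1 u v wa wb K : ℝ} (h : m0 < m1) (hm0 : m0 ≤ m) (hm1 : m ≤ m1)
    (h0 : K ≤ X 39 v - X 39 u - wb * Phi 39 m0 v - wa * Phi 39 m0 u)
    (h1 : K ≤ X 39 v - X 39 u - wb * Phi 39 m1 v - wa * Phi 39 m1 u) :
    K ≤ X 39 v - X 39 u - wb * Phi 39 m v - wa * Phi 39 m u := by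
  refine comb h hm0 hm1 ?_ h0 h1
  have e1 := Phi_lin 39 v m m0 m1
  have e2 := Phi_lin 39 u m m0 m1
  linear_combination (-wb) * e1 + (-wa) * e2

end EHP.NumN

namespace EHP

open NumN

theorem numN {m u v : ℝ} (hm : 0.5 ≤ m) (hm' : m ≤ 0.78) (hu : 1 < u) (_hu' : u < 39) (hv : 39 < v)
    (ha : X 39 u ≤ 0) (hba : X 39 v - X 39 u < 1.8345)
    (hb : 0 ≤ m * log (X 39 v - 1) + (1 - m) * log (X 39 v + 1)) :
    ∃ wa wb, 0 ≤ wa ∧ 0 ≤ wb ∧
      1.8345 ≤ X 39 v - X 39 u - wb * Phi 39 m v - wa * Phi 39 m u ∧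
      ((m ≤ 0.7 ∧ rho 39 u v wa wb ≤ 0.96 ∧ -0.4205 ≤ X 39 u) ∨
        (0.7 ≤ m ∧ rho 39 u v wa wb ≤ 0.86 ∧ -0.177 ≤ X 39 u)) := by
  have hv1 : 1 < X 39 v := by
    by_contra hc
    push Not at hc
    have h1 := X39' (show 0 < v by linarith)
    have h2 : v * (X 39 v + 1) ≤ v * 2 := by nlinarith
    have h3 : (v + 1) ^ 2 ≤ v * (1600 / 39) := by nlinarith
    nlinarith
  have hu1 : u ≤ 18.46 := u_le (by linarith) ha (by norm_num) (by norm_num)
  have hv2 : v ≤ 56.2 := u_le (x := 1.8345) (by linarith) (by linarith) (by norm_num) (by norm_num)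
  have hb1 : 1.4142 ≤ X 39 v := b_ge1 hm hv1 hb
  have hv3 : 47.49 ≤ v := le_u (by linarith) hb1 (by norm_num) (by norm_num)
  have hu2 : -0.4203 ≤ X 39 u := by linarith
  rcases le_total m 0.7 with hm7 | hm7
  · rcases le_total (-0.25) (X 39 u) with hx | hx
    · -- cell (i)
      have hu3 : 13.309 ≤ u := le_u hu hx (by norm_num) (by norm_num)
      refine ⟨1.98, 0.77, by norm_num, by norm_num, ?_, Or.inl ⟨hm7, ?_, by linarith⟩⟩
      · exact F_lin (by norm_num) hm hm7 (case_i0 hu hu1 hv hv2) (case_i1 hu hu1 hv hv2)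
      · refine (rho_le (su := 0.645) (sv := 2.314) (by norm_num) (by norm_num) ?_ ?_
          (by norm_num) (by norm_num)).trans (by norm_num)
        · exact ss_le (by norm_num) hu3 (by norm_num)
        · exact ss_le (by norm_num) hv3 (by norm_num)
    · -- cell (ii)
      have hu3 : 9.78 ≤ u := le_u hu hu2 (by norm_num) (by norm_num)
      have hu4 : u ≤ 13.31 := u_le (by linarith) hx (by norm_num) (by norm_num)
      refine ⟨1.2, 0.8, by norm_num, by norm_num, ?_, Or.inl ⟨hm7, ?_, by linarith⟩⟩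
      · exact F_lin (by norm_num) hm hm7 (case_ii0 hu hu4 hv hv2) (case_ii1 hu hu4 hv hv2)
      · refine (rho_le (su := 0.471) (sv := 2.314) (by norm_num) (by norm_num) ?_ ?_
          (by norm_num) (by norm_num)).trans (by norm_num)
        · exact ss_le (by norm_num) hu3 (by norm_num)
        · exact ss_le (by norm_num) hv3 (by norm_num)
  · -- cell (iii)
    have hb2 : 1.6575 ≤ X 39 v := b_ge2 hm7 hv1 hb
    have hv4 : 52.48 ≤ v := le_u (by linarith) hb2 (by norm_num) (by norm_num)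
    have hu3 : -0.177 ≤ X 39 u := by linarith
    have hu4 : 14.81 ≤ u := le_u hu hu3 (by norm_num) (by norm_num)
    refine ⟨1.94, 0.89, by norm_num, by norm_num, ?_, Or.inr ⟨hm7, ?_, hu3⟩⟩
    · exact F_lin (by norm_num) hm7 hm' (case_iii0 (by linarith) hu1 hv hv2)
        (case_iii1 (by linarith) hu1 hv hv2)
    · refine (rho_le (su := 0.7186) (sv := 2.557) (by norm_num) (by norm_num) ?_ ?_
          (by norm_num) (by norm_num)).trans (by norm_num)
      · exact ss_le (by norm_num) hu4 (by norm_num)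
      · exact ss_le (by norm_num) hv4 (by norm_num)

end EHP
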