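import Pool.Agent.Helper52.EHP.Basic

open Real

namespace EHP.NumN

lemma l39 : (3.663560 : ℝ) ≤ log (39 : ℝ) ∧ log (39 : ℝ) ≤ 3.663563 := by
  have h := Real.abs_log_sub_add_sum_range_le (x := ((-7)/32 : ℝ)) (by norm_num [abs_lt]) 10
  have e : log (39 : ℝ) = 5 * log 2 + log (1 - ((-7)/32 : ℝ)) := by
    rw [show (39 : ℝ) = 2 ^ (5 : ℕ) * (1 - ((-7)/32 : ℝ)) by norm_num, Real.log_mul (by norm_num) (by norm_num),
      Real.log_pow]
    norm_num
  have h2 := Real.log_two_gt_d9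
  have h3 := Real.log_two_lt_d9
  rw [abs_le] at h
  obtain ⟨ha, hb⟩ := h
  norm_num [Finset.sum_range_succ, abs_of_pos, abs_of_neg] at ha hb e
  rw [e]
  constructor <;> norm_num <;> linarith

lemma lLam : (3.021049 : ℝ) ≤ log (800/39 : ℝ) ∧ log (800/39 : ℝ) ≤ 3.021052 := by
  have h := Real.abs_log_sub_add_sum_range_le (x := ((-11)/39 : ℝ)) (by norm_num [abs_lt]) 12
  have e : log (800/39 : ℝ) = 4 * log 2 + log (1 - ((-11)/39 : ℝ)) := by
    rw [show (800/39 : ℝ) = 2 ^ (4 : ℕ) * (1 - ((-11)/39 : ℝ)) by norm_num, Real.log_mul (by norm_num) (by norm_num),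
      Real.log_pow]
    norm_num
  have h2 := Real.log_two_gt_d9
  have h3 := Real.log_two_lt_d9
  rw [abs_le] at h
  obtain ⟨ha, hb⟩ := h
  norm_num [Finset.sum_range_succ, abs_of_pos, abs_of_neg] at ha hb e
  rw [e]
  constructor <;> norm_num <;> linarith

lemma l1846 : (2.915605 : ℝ) ≤ log (923/50 : ℝ) ∧ log (923/50 : ℝ) ≤ 2.915608 := by
  have h := Real.abs_log_sub_add_sum_range_le (x := ((-123)/800 : ℝ)) (by norm_num [abs_lt]) 8
  have e : log (923/50 : ℝ) = 4 * log 2 + log (1 - ((-123)/800 : ℝ)) := by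
    rw [show (923/50 : ℝ) = 2 ^ (4 : ℕ) * (1 - ((-123)/800 : ℝ)) by norm_num, Real.log_mul (by norm_num) (by norm_num),
      Real.log_pow]
    norm_num
  have h2 := Real.log_two_gt_d9
  have h3 := Real.log_two_lt_d9
  rw [abs_le] at h
  obtain ⟨ha, hb⟩ := h
  norm_num [Finset.sum_range_succ, abs_of_pos, abs_of_neg] at ha hb e
  rw [e]
  constructor <;> norm_num <;> linarith

lemma l2054 : (3.022373 : ℝ) ≤ log (1027/50 : ℝ) ∧ log (1027/50 : ℝ) ≤ 3.022376 := by
  have h := Real.abs_log_sub_add_sum_range_le (x := ((-227)/800 : ℝ)) (by norm_num [abs_lt]) 13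
  have e : log (1027/50 : ℝ) = 4 * log 2 + log (1 - ((-227)/800 : ℝ)) := by
    rw [show (1027/50 : ℝ) = 2 ^ (4 : ℕ) * (1 - ((-227)/800 : ℝ)) by norm_num, Real.log_mul (by norm_num) (by norm_num),
      Real.log_pow]
    norm_num
  have h2 := Real.log_two_gt_d9
  have h3 := Real.log_two_lt_d9
  rw [abs_le] at h
  obtain ⟨ha, hb⟩ := h
  norm_num [Finset.sum_range_succ, abs_of_pos, abs_of_neg] at ha hb e
  rw [e]
  constructor <;> norm_num <;> linarith

lemma l1331 : (2.588514 : ℝ) ≤ log (1331/100 : ℝ) ∧ log (1331/100 : ℝ) ≤ 2.588517 := by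
  have h := Real.abs_log_sub_add_sum_range_le (x := ((269)/1600 : ℝ)) (by norm_num [abs_lt]) 9
  have e : log (1331/100 : ℝ) = 4 * log 2 + log (1 - ((269)/1600 : ℝ)) := by
    rw [show (1331/100 : ℝ) = 2 ^ (4 : ℕ) * (1 - ((269)/1600 : ℝ)) by norm_num, Real.log_mul (by norm_num) (by norm_num),
      Real.log_pow]
    norm_num
  have h2 := Real.log_two_gt_d9
  have h3 := Real.log_two_lt_d9
  rw [abs_le] at h
  obtain ⟨ha, hb⟩ := h
  norm_num [Finset.sum_range_succ, abs_of_pos, abs_of_neg] at ha hb e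
  rw [e]
  constructor <;> norm_num <;> linarith

lemma l2569 : (3.246100 : ℝ) ≤ log (2569/100 : ℝ) ∧ log (2569/100 : ℝ) ≤ 3.246103 := by
  have h := Real.abs_log_sub_add_sum_range_le (x := ((631)/3200 : ℝ)) (by norm_num [abs_lt]) 10
  have e : log (2569/100 : ℝ) = 5 * log 2 + log (1 - ((631)/3200 : ℝ)) := by
    rw [show (2569/100 : ℝ) = 2 ^ (5 : ℕ) * (1 - ((631)/3200 : ℝ)) by norm_num, Real.log_mul (by norm_num) (by norm_num),
      Real.log_pow]
    norm_num
  have h2 := Real.log_two_gt_d9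
  have h3 := Real.log_two_lt_d9
  rw [abs_le] at h
  obtain ⟨ha, hb⟩ := h
  norm_num [Finset.sum_range_succ, abs_of_pos, abs_of_neg] at ha hb e
  rw [e]
  constructor <;> norm_num <;> linarith

lemma l4862 : (3.884033 : ℝ) ≤ log (2431/50 : ℝ) ∧ log (2431/50 : ℝ) ≤ 3.884036 := by
  have h := Real.abs_log_sub_add_sum_range_le (x := ((769)/3200 : ℝ)) (by norm_num [abs_lt]) 11
  have e : log (2431/50 : ℝ) = 6 * log 2 + log (1 - ((769)/3200 : ℝ)) := by
    rw [show (2431/50 : ℝ) = 2 ^ (6 : ℕ) * (1 - ((769)/3200 : ℝ)) by norm_num, Real.log_mul (by norm_num) (by norm_num),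
      Real.log_pow]
    norm_num
  have h2 := Real.log_two_gt_d9
  have h3 := Real.log_two_lt_d9
  rw [abs_le] at h
  obtain ⟨ha, hb⟩ := h
  norm_num [Finset.sum_range_succ, abs_of_pos, abs_of_neg] at ha hb e
  rw [e]
  constructor <;> norm_num <;> linarith

lemma l962 : (2.263843 : ℝ) ≤ log (481/50 : ℝ) ∧ log (481/50 : ℝ) ≤ 2.263846 := by
  have h := Real.abs_log_sub_add_sum_range_le (x := ((-81)/400 : ℝ)) (by norm_num [abs_lt]) 10
  have e : log (481/50 : ℝ) = 3 * log 2 + log (1 - ((-81)/400 : ℝ)) := by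
    rw [show (481/50 : ℝ) = 2 ^ (3 : ℕ) * (1 - ((-81)/400 : ℝ)) by norm_num, Real.log_mul (by norm_num) (by norm_num),
      Real.log_pow]
    norm_num
  have h2 := Real.log_two_gt_d9
  have h3 := Real.log_two_lt_d9
  rw [abs_le] at h
  obtain ⟨ha, hb⟩ := h
  norm_num [Finset.sum_range_succ, abs_of_pos, abs_of_neg] at ha hb e
  rw [e]
  constructor <;> norm_num <;> linarith

lemma l5126 : (3.936909 : ℝ) ≤ log (2563/50 : ℝ) ∧ log (2563/50 : ℝ) ≤ 3.936912 := by
  have h := Real.abs_log_sub_add_sum_range_le (x := ((637)/3200 : ℝ)) (by norm_num [abs_lt]) 10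
  have e : log (2563/50 : ℝ) = 6 * log 2 + log (1 - ((637)/3200 : ℝ)) := by
    rw [show (2563/50 : ℝ) = 2 ^ (6 : ℕ) * (1 - ((637)/3200 : ℝ)) by norm_num, Real.log_mul (by norm_num) (by norm_num),
      Real.log_pow]
    norm_num
  have h2 := Real.log_two_gt_d9
  have h3 := Real.log_two_lt_d9
  rw [abs_le] at h
  obtain ⟨ha, hb⟩ := h
  norm_num [Finset.sum_range_succ, abs_of_pos, abs_of_neg] at ha hb e
  rw [e]
  constructor <;> norm_num <;> linarith

lemma l1226 : (2.506340 : ℝ) ≤ log (613/50 : ℝ) ∧ log (613/50 : ℝ) ≤ 2.506343 := by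
  have h := Real.abs_log_sub_add_sum_range_le (x := ((187)/800 : ℝ)) (by norm_num [abs_lt]) 11
  have e : log (613/50 : ℝ) = 4 * log 2 + log (1 - ((187)/800 : ℝ)) := by
    rw [show (613/50 : ℝ) = 2 ^ (4 : ℕ) * (1 - ((187)/800 : ℝ)) by norm_num, Real.log_mul (by norm_num) (by norm_num),
      Real.log_pow]
    norm_num
  have h2 := Real.log_two_gt_d9
  have h3 := Real.log_two_lt_d9
  rw [abs_le] at h
  obtain ⟨ha, hb⟩ := h
  norm_num [Finset.sum_range_succ, abs_of_pos, abs_of_neg] at ha hb e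
  rw [e]
  constructor <;> norm_num <;> linarith

lemma l5334 : (3.976685 : ℝ) ≤ log (2667/50 : ℝ) ∧ log (2667/50 : ℝ) ≤ 3.976688 := by
  have h := Real.abs_log_sub_add_sum_range_le (x := ((533)/3200 : ℝ)) (by norm_num [abs_lt]) 9
  have e : log (2667/50 : ℝ) = 6 * log 2 + log (1 - ((533)/3200 : ℝ)) := by
    rw [show (2667/50 : ℝ) = 2 ^ (6 : ℕ) * (1 - ((533)/3200 : ℝ)) by norm_num, Real.log_mul (by norm_num) (by norm_num),
      Real.log_pow]
    norm_num
  have h2 := Real.log_two_gt_d9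
  have h3 := Real.log_two_lt_d9
  rw [abs_le] at h
  obtain ⟨ha, hb⟩ := h
  norm_num [Finset.sum_range_succ, abs_of_pos, abs_of_neg] at ha hb e
  rw [e]
  constructor <;> norm_num <;> linarith

lemma l1434 : (2.663051 : ℝ) ≤ log (717/50 : ℝ) ∧ log (717/50 : ℝ) ≤ 2.663054 := by
  have h := Real.abs_log_sub_add_sum_range_le (x := ((83)/800 : ℝ)) (by norm_num [abs_lt]) 7
  have e : log (717/50 : ℝ) = 4 * log 2 + log (1 - ((83)/800 : ℝ)) := by
    rw [show (717/50 : ℝ) = 2 ^ (4 : ℕ) * (1 - ((83)/800 : ℝ)) by norm_num, Real.log_mul (by norm_num) (by norm_num),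
      Real.log_pow]
    norm_num
  have h2 := Real.log_two_gt_d9
  have h3 := Real.log_two_lt_d9
  rw [abs_le] at h
  obtain ⟨ha, hb⟩ := h
  norm_num [Finset.sum_range_succ, abs_of_pos, abs_of_neg] at ha hb e
  rw [e]
  constructor <;> norm_num <;> linarith

lemma l5441 : (3.996546 : ℝ) ≤ log (5441/100 : ℝ) ∧ log (5441/100 : ℝ) ≤ 3.996549 := by
  have h := Real.abs_log_sub_add_sum_range_le (x := ((959)/6400 : ℝ)) (by norm_num [abs_lt]) 8
  have e : log (5441/100 : ℝ) = 6 * log 2 + log (1 - ((959)/6400 : ℝ)) := by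
    rw [show (5441/100 : ℝ) = 2 ^ (6 : ℕ) * (1 - ((959)/6400 : ℝ)) by norm_num, Real.log_mul (by norm_num) (by norm_num),
      Real.log_pow]
    norm_num
  have h2 := Real.log_two_gt_d9
  have h3 := Real.log_two_lt_d9
  rw [abs_le] at h
  obtain ⟨ha, hb⟩ := h
  norm_num [Finset.sum_range_succ, abs_of_pos, abs_of_neg] at ha hb e
  rw [e]
  constructor <;> norm_num <;> linarith

lemma l1541 : (2.735015 : ℝ) ≤ log (1541/100 : ℝ) ∧ log (1541/100 : ℝ) ≤ 2.735018 := by
  have h := Real.abs_log_sub_add_sum_range_le (x := ((59)/1600 : ℝ)) (by norm_num [abs_lt]) 4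
  have e : log (1541/100 : ℝ) = 4 * log 2 + log (1 - ((59)/1600 : ℝ)) := by
    rw [show (1541/100 : ℝ) = 2 ^ (4 : ℕ) * (1 - ((59)/1600 : ℝ)) by norm_num, Real.log_mul (by norm_num) (by norm_num),
      Real.log_pow]
    norm_num
  have h2 := Real.log_two_gt_d9
  have h3 := Real.log_two_lt_d9
  rw [abs_le] at h
  obtain ⟨ha, hb⟩ := h
  norm_num [Finset.sum_range_succ, abs_of_pos, abs_of_neg] at ha hb e
  rw [e]
  constructor <;> norm_num <;> linarith

end EHP.NumN
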